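import Mathlib

set_option autoImplicit false
set_option linter.unusedVariables false

/-!
# Packed linear forms

A linear form in 40 nonnegative variables is a pair `P - N`, each of the two nonnegative
coefficient vectors packed into one natural number in base `Bs`.
-/

namespace Pool.Agent.R365.Chk

open Finset

/-- base of the packing, `2 ^ 128` -/
def Bs : ℕ := 340282366920938463463374607431768211456

/-- packed linear form `P - N`; all coefficients are at most `M` -/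
structure Fm where
  P : ℕ
  N : ℕ
  M : ℕ

namespace Fm

def zero : Fm := ⟨0, 0, 0⟩
def un (j : ℕ) : Fm := ⟨Nat.pow Bs j, 0, 1⟩
def add (a b : Fm) : Fm := ⟨Nat.add a.P b.P, Nat.add a.N b.N, Nat.add a.M b.M⟩
def sub (a b : Fm) : Fm := ⟨Nat.add a.P b.N, Nat.add a.N b.P, Nat.add a.M b.M⟩
def mul (m : ℕ) (a : Fm) : Fm := ⟨Nat.mul m a.P, Nat.mul m a.N, Nat.mul m a.M⟩
def cnd (b : Bool) (f : Fm) : Fm := bif b then f else zero

end Fm

open Fm

/-- the packing of a coefficient vector -/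
def sm (L : ℕ → ℕ) : ℕ := ∑ j ∈ range 40, L j * Bs ^ j

/-- the packed form `f` represents the number `r` at the point `x` -/
def Rep (x : ℕ → ℝ) (f : Fm) (r : ℝ) : Prop :=
  ∃ L L' : ℕ → ℕ, (∀ j, L j ≤ f.M) ∧ (∀ j, L' j ≤ f.M) ∧ f.P = sm L ∧ f.N = sm L' ∧
    r = ∑ j ∈ range 40, ((L j : ℝ) - L' j) * x j

theorem sm_zero : sm (fun _ => 0) = 0 := by simp [sm]

theorem sm_add (L L' : ℕ → ℕ) : sm (fun j => L j + L' j) = sm L + sm L' := by
  simp only [sm, add_mul, sum_add_distrib]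

theorem sm_mul (m : ℕ) (L : ℕ → ℕ) : sm (fun j => m * L j) = m * sm L := by
  simp only [sm, mul_sum, mul_assoc]

variable {x : ℕ → ℝ} {f g : Fm} {r s : ℝ}

theorem rep_congr (h : Rep x f r) (e : r = s) : Rep x f s := e ▸ h

theorem rep_zero : Rep x zero 0 :=
  ⟨fun _ => 0, fun _ => 0, fun _ => le_rfl, fun _ => le_rfl, sm_zero.symm, sm_zero.symm, by simp⟩

theorem rep_un (j : ℕ) (hj : j < 40) : Rep x (un j) (x j) := by
  refine ⟨fun i => if i = j then 1 else 0, fun _ => 0, fun i => ?_, fun _ => Nat.zero_le _, ?_,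
    sm_zero.symm, ?_⟩
  · show (if i = j then 1 else 0) ≤ 1
    split_ifs <;> omega
  · show Bs ^ j = sm _
    unfold sm
    rw [Finset.sum_eq_single j]
    · simp
    · intro b _ hb
      simp [hb]
    · intro h
      exact absurd (mem_range.2 hj) h
  · rw [Finset.sum_eq_single j]
    · simp
    · intro b _ hb
      simp [hb]
    · intro h
      exact absurd (mem_range.2 hj) h

theorem rep_add (hf : Rep x f r) (hg : Rep x g s) : Rep x (f.add g) (r + s) := by
  obtain ⟨L, L', h1, h2, h3, h4, h5⟩ := hf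
  obtain ⟨K, K', k1, k2, k3, k4, k5⟩ := hg
  refine ⟨fun j => L j + K j, fun j => L' j + K' j, fun j => Nat.add_le_add (h1 j) (k1 j),
    fun j => Nat.add_le_add (h2 j) (k2 j), ?_, ?_, ?_⟩
  · show f.P + g.P = _
    rw [sm_add, h3, k3]
  · show f.N + g.N = _
    rw [sm_add, h4, k4]
  · rw [h5, k5, ← sum_add_distrib]
    refine sum_congr rfl fun j _ => ?_
    push_cast
    ring

theorem rep_sub (hf : Rep x f r) (hg : Rep x g s) : Rep x (f.sub g) (r - s) := by
  obtain ⟨L, L', h1, h2, h3, h4, h5⟩ := hf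
  obtain ⟨K, K', k1, k2, k3, k4, k5⟩ := hg
  refine ⟨fun j => L j + K' j, fun j => L' j + K j, fun j => Nat.add_le_add (h1 j) (k2 j),
    fun j => Nat.add_le_add (h2 j) (k1 j), ?_, ?_, ?_⟩
  · show f.P + g.N = _
    rw [sm_add, h3, k4]
  · show f.N + g.P = _
    rw [sm_add, h4, k3]
  · rw [h5, k5, ← sum_sub_distrib]
    refine sum_congr rfl fun j _ => ?_
    push_cast
    ring

theorem rep_mul (m : ℕ) (hf : Rep x f r) : Rep x (f.mul m) ((m : ℝ) * r) := by
  obtain ⟨L, L', h1, h2, h3, h4, h5⟩ := hf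
  refine ⟨fun j => m * L j, fun j => m * L' j, fun j => Nat.mul_le_mul_left m (h1 j),
    fun j => Nat.mul_le_mul_left m (h2 j), ?_, ?_, ?_⟩
  · show m * f.P = _
    rw [sm_mul, h3]
  · show m * f.N = _
    rw [sm_mul, h4]
  · rw [h5, mul_sum]
    refine sum_congr rfl fun j _ => ?_
    push_cast
    ring

theorem rep_cnd (b : Bool) (hf : Rep x f r) : Rep x (cnd b f) (if b = true then r else 0) := by
  cases b
  · simpa [cnd] using rep_zero
  · simpa [cnd] using hf

/-- digitwise comparison in base `Bs` -/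
def leD : ℕ → ℕ → ℕ → Bool
  | 0, _, _ => true
  | k + 1, P, N => Nat.ble (Nat.mod P Bs) (Nat.mod N Bs) && leD k (Nat.div P Bs) (Nat.div N Bs)

theorem leD_sound (k : ℕ) : ∀ (P N : ℕ) (L L' : ℕ → ℕ), (∀ j, L j < Bs) → (∀ j, L' j < Bs) →
    P = ∑ j ∈ range k, L j * Bs ^ j → N = ∑ j ∈ range k, L' j * Bs ^ j →
    leD k P N = true → ∀ j, j < k → L j ≤ L' j := by
  induction k with
  | zero => intro P N L L' _ _ _ _ _ j hj; omega
  | succ k ih =>
    intro P N L L' hL hL' hP hN h j hj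
    have hB : 0 < Bs := by unfold Bs; norm_num
    have key : ∀ (A : ℕ) (Q : ℕ → ℕ), (∀ j, Q j < Bs) → A = ∑ j ∈ range (k + 1), Q j * Bs ^ j →
        A % Bs = Q 0 ∧ A / Bs = ∑ j ∈ range k, Q (j + 1) * Bs ^ j := by
      intro A Q hQ hA
      rw [Finset.sum_range_succ'] at hA
      have e : ∑ j ∈ range k, Q (j + 1) * Bs ^ (j + 1) =
          Bs * ∑ j ∈ range k, Q (j + 1) * Bs ^ j := by
        rw [mul_sum]
        refine sum_congr rfl fun j _ => ?_
        ring
      rw [e, pow_zero, mul_one] at hA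
      constructor
      · rw [hA, Nat.mul_add_mod]
        exact Nat.mod_eq_of_lt (hQ 0)
      · rw [hA, Nat.mul_add_div hB, Nat.div_eq_of_lt (hQ 0), add_zero]
    obtain ⟨p1, p2⟩ := key P L hL hP
    obtain ⟨n1, n2⟩ := key N L' hL' hN
    have h' : (Nat.ble (P % Bs) (N % Bs) && leD k (P / Bs) (N / Bs)) = true := h
    rw [Bool.and_eq_true] at h'
    obtain ⟨h1, h2⟩ := h'
    rcases Nat.eq_zero_or_pos j with h0 | h0
    · subst h0
      have := Nat.le_of_ble_eq_true h1
      rw [p1, n1] at this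
      exact this
    · obtain ⟨i, rfl⟩ : ∃ i, j = i + 1 := ⟨j - 1, by omega⟩
      exact ih (P / Bs) (N / Bs) (fun j => L (j + 1)) (fun j => L' (j + 1)) (fun j => hL _)
        (fun j => hL' _) p2 n2 h2 i (by omega)

theorem rep_nonpos (hx : ∀ j, 0 ≤ x j) (hf : Rep x f r) (hM : f.M < Bs)
    (h : leD 40 f.P f.N = true) : r ≤ 0 := by
  obtain ⟨L, L', h1, h2, h3, h4, h5⟩ := hf
  have key := leD_sound 40 f.P f.N L L' (fun j => (h1 j).trans_lt hM)
    (fun j => (h2 j).trans_lt hM) h3 h4 h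
  rw [h5]
  refine Finset.sum_nonpos fun j hj => ?_
  have h6 : (L j : ℝ) ≤ L' j := by exact_mod_cast key j (mem_range.1 hj)
  exact mul_nonpos_of_nonpos_of_nonneg (by linarith) (hx j)

/-- weighted sum of forms; the weights are the digits of `n` in base `W` -/
def comb (W : ℕ) : List Fm → ℕ → Fm
  | [], _ => zero
  | f :: fs, n => bif Nat.beq (Nat.mod n W) 0 then comb W fs (Nat.div n W)
      else Fm.add (Fm.mul (Nat.mod n W) f) (comb W fs (Nat.div n W))

theorem comb_base (W : ℕ) : ∀ (l : List Fm) (n : ℕ), (∀ f ∈ l, ∃ r, Rep x f r ∧ 0 ≤ r) →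
    ∃ r, Rep x (comb W l n) r ∧ 0 ≤ r := by
  intro l
  induction l with
  | nil => intro n _; exact ⟨0, rep_zero, le_rfl⟩
  | cons f fs ih =>
    intro n h
    obtain ⟨r, hr, hr0⟩ := ih (n / W) fun g hg => h g (List.mem_cons_of_mem _ hg)
    obtain ⟨s, hs, hs0⟩ := h f List.mem_cons_self
    show ∃ r, Rep x (bif Nat.beq (n % W) 0 then comb W fs (n / W)
      else Fm.add (Fm.mul (n % W) f) (comb W fs (n / W))) r ∧ 0 ≤ r
    cases hb : Nat.beq (n % W) 0
    · exact ⟨_, rep_add (rep_mul _ hs) hr, by positivity⟩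
    · exact ⟨r, hr, hr0⟩

theorem comb_path (W : ℕ) : ∀ (l : List Fm) (n : ℕ), (∀ f ∈ l, ∃ r, Rep x f r ∧ 0 < r) →
    ∃ r, Rep x (comb W l n) r ∧ 0 ≤ r ∧ ((comb W l n).M ≠ 0 → 0 < r) := by
  intro l
  induction l with
  | nil => intro n _; exact ⟨0, rep_zero, le_rfl, fun h => absurd rfl h⟩
  | cons f fs ih =>
    intro n h
    obtain ⟨r, hr, hr0, hr1⟩ := ih (n / W) fun g hg => h g (List.mem_cons_of_mem _ hg)
    obtain ⟨s, hs, hs0⟩ := h f List.mem_cons_self
    have e : comb W (f :: fs) n = (bif Nat.beq (n % W) 0 then comb W fs (n / W)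
      else Fm.add (Fm.mul (n % W) f) (comb W fs (n / W))) := rfl
    rw [e]
    cases hb : Nat.beq (n % W) 0
    · have h1 : 0 < n % W := by
        rcases Nat.eq_zero_or_pos (n % W) with h0 | h0
        · rw [h0] at hb
          exact absurd hb (by decide)
        · exact h0
      have h2 : (0 : ℝ) < ((n % W : ℕ) : ℝ) := by exact_mod_cast h1
      have h3 : 0 < ((n % W : ℕ) : ℝ) * s + r := by positivity
      exact ⟨_, rep_add (rep_mul _ hs) hr, h3.le, fun _ => h3⟩
    · exact ⟨r, hr, hr0, hr1⟩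

/-- a leaf: the code is `w + 128 * (n₂ + 2 ^ (11 w) * n₁)`; weights of the base rows are the digits
of `n₂` in base `2 ^ w`, weights of the path rows those of `n₁` -/
def leafOk (base g : List Fm) (n : ℕ) : Bool :=
  let w := Nat.mod n 128
  let m := Nat.div n 128
  let W := Nat.pow 2 w
  let U := Nat.pow 2 (Nat.mul 11 w)
  let A := comb W g (Nat.div m U)
  let C := Fm.add A (comb W base (Nat.mod m U))
  Nat.ble 1 A.M && Nat.blt C.M Bs && leD 40 C.P C.N

theorem leafOk_sound (hx : ∀ j, 0 ≤ x j) (base g : List Fm) (n : ℕ)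
    (hb : ∀ f ∈ base, ∃ r, Rep x f r ∧ 0 ≤ r) (hg : ∀ f ∈ g, ∃ r, Rep x f r ∧ 0 < r)
    (h : leafOk base g n = true) : False := by
  unfold leafOk at h
  simp only [Bool.and_eq_true] at h
  obtain ⟨⟨h1, h2⟩, h3⟩ := h
  obtain ⟨r, hr, hr0, hr1⟩ := comb_path (Nat.pow 2 (Nat.mod n 128)) g
    (Nat.div (Nat.div n 128) (Nat.pow 2 (Nat.mul 11 (Nat.mod n 128)))) hg
  obtain ⟨s, hs, hs0⟩ := comb_base (Nat.pow 2 (Nat.mod n 128)) base
    (Nat.mod (Nat.div n 128) (Nat.pow 2 (Nat.mul 11 (Nat.mod n 128)))) hb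
  have h4 := Nat.le_of_ble_eq_true h1
  have h5 := rep_nonpos hx (rep_add hr hs) (Nat.le_of_ble_eq_true h2) h3
  have h6 := hr1 (by omega)
  linarith

end Pool.Agent.R365.Chk
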