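import Mathlib
import Pool.Agent.R365.Chk.Pack
import Pool.Agent.R365.AK.Cls

set_option autoImplicit false
set_option linter.unusedVariables false

/-!
# The bounds M, S, D as packed forms

Coordinates, for `N + 1` classes: `(N + 1) p + i` for the costs, `3 (N + 1) + p` for the excess
weight of the last class, `3 (N + 1) + 3 + p` for the `s`, then `X`, `Y`, `η`.
-/

namespace Pool.Agent.R365.Chk

open Finset Fm Pool.Agent.R365.AK

/-- membership of the class `i` in the mask `m` -/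
def bt (m i : ℕ) : Bool := Nat.beq (Nat.mod (Nat.div m (Nat.pow 2 i)) 2) 1

/-- the set of classes with mask `m` -/
def st (N m : ℕ) : Finset (Fin (N + 1)) := univ.filter fun i => bt m i = true

/-- `Fin 3` from a number -/
def fz (p : ℕ) : Fin 3 := if p = 0 then 0 else if p = 1 then 1 else 2

/-- the sum of the first `j` costs of the mask -/
def Vj (N p m : ℕ) : ℕ → Fm
  | 0 => zero
  | i + 1 => add (Vj N p m i) (cnd (bt m i) (un (Nat.add (Nat.mul (Nat.succ N) p) i)))

/-- the cost of a mask -/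
def VF (N p m : ℕ) : Fm := Vj N p m (Nat.succ N)

/-- the sum of the first `j` weights of the mask -/
def Wj (N p m : ℕ) : ℕ → Fm
  | 0 => zero
  | i + 1 => add (Wj N p m i)
      (cnd (bt m i) (mul (Nat.succ i) (un (Nat.add (Nat.mul (Nat.succ N) p) i))))

/-- the weight of a mask, plus `s p + η` -/
def WF (N p m : ℕ) : Fm :=
  add (add (Wj N p m (Nat.succ N)) (cnd (bt m N) (un (Nat.add (Nat.mul 3 (Nat.succ N)) p))))
    (un (Nat.add (Nat.add (Nat.mul 3 (Nat.succ N)) 3) p))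

/-- the coordinates -/
noncomputable def xx (N : ℕ) (v : Fin 3 → Fin (N + 1) → ℝ) (w s : Fin 3 → ℝ) (X Y η : ℝ) (j : ℕ) :
    ℝ :=
  if j < 3 * (N + 1) then v (fz (j / (N + 1))) (Fin.ofNat (N + 1) (j % (N + 1))) else
  if j < 3 * (N + 1) + 3 then
    w (fz (j - 3 * (N + 1))) - ((N : ℝ) + 1) * v (fz (j - 3 * (N + 1))) (Fin.last N) else
  if j < 3 * (N + 1) + 6 then s (fz (j - (3 * (N + 1) + 3))) + η else
  if j = 3 * (N + 1) + 6 then X else if j = 3 * (N + 1) + 7 then Y else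
  if j = 3 * (N + 1) + 8 then η else 0

section blocks

variable {N : ℕ} {v : Fin 3 → Fin (N + 1) → ℝ} {w s : Fin 3 → ℝ} {X Y η : ℝ}

theorem xx_v (p i : ℕ) (hp : p < 3) (hi : i < N + 1) :
    xx N v w s X Y η ((N + 1) * p + i) = v (fz p) (Fin.ofNat (N + 1) i) := by
  have h0 : (N + 1) * p ≤ (N + 1) * 2 := Nat.mul_le_mul_left _ (by omega)
  have h1 : (N + 1) * p + i < 3 * (N + 1) := by omega
  have h2 : ((N + 1) * p + i) / (N + 1) = p := by
    rw [Nat.mul_add_div (by omega), Nat.div_eq_of_lt hi, add_zero]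
  have h3 : ((N + 1) * p + i) % (N + 1) = i := by
    rw [Nat.mul_add_mod, Nat.mod_eq_of_lt hi]
  simp only [xx, h1, if_true, h2, h3]

theorem xx_y (p : ℕ) (hp : p < 3) :
    xx N v w s X Y η (3 * (N + 1) + p) = w (fz p) - ((N : ℝ) + 1) * v (fz p) (Fin.last N) := by
  have h1 : ¬ (3 * (N + 1) + p < 3 * (N + 1)) := by omega
  have h2 : 3 * (N + 1) + p < 3 * (N + 1) + 3 := by omega
  have h3 : 3 * (N + 1) + p - 3 * (N + 1) = p := by omega
  simp only [xx, h1, if_false, h2, if_true, h3]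

theorem xx_s (p : ℕ) (hp : p < 3) :
    xx N v w s X Y η (3 * (N + 1) + 3 + p) = s (fz p) + η := by
  have h1 : ¬ (3 * (N + 1) + 3 + p < 3 * (N + 1)) := by omega
  have h1' : ¬ (3 * (N + 1) + 3 + p < 3 * (N + 1) + 3) := by omega
  have h2 : 3 * (N + 1) + 3 + p < 3 * (N + 1) + 6 := by omega
  have h3 : 3 * (N + 1) + 3 + p - (3 * (N + 1) + 3) = p := by omega
  simp only [xx, h1, h1', if_false, h2, if_true, h3]

theorem xx_X : xx N v w s X Y η (3 * (N + 1) + 6) = X := by
  have h1 : ¬ (3 * (N + 1) + 6 < 3 * (N + 1)) := by omega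
  have h2 : ¬ (3 * (N + 1) + 6 < 3 * (N + 1) + 3) := by omega
  have h3 : ¬ (3 * (N + 1) + 6 < 3 * (N + 1) + 6) := by omega
  simp only [xx, h1, h2, h3, if_false, if_true]

theorem xx_Y : xx N v w s X Y η (3 * (N + 1) + 7) = Y := by
  have h1 : ¬ (3 * (N + 1) + 7 < 3 * (N + 1)) := by omega
  have h2 : ¬ (3 * (N + 1) + 7 < 3 * (N + 1) + 3) := by omega
  have h3 : ¬ (3 * (N + 1) + 7 < 3 * (N + 1) + 6) := by omega
  have h4 : ¬ (3 * (N + 1) + 7 = 3 * (N + 1) + 6) := by omega
  simp only [xx, h1, h2, h3, h4, if_false, if_true]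

theorem xx_e : xx N v w s X Y η (3 * (N + 1) + 8) = η := by
  have h1 : ¬ (3 * (N + 1) + 8 < 3 * (N + 1)) := by omega
  have h2 : ¬ (3 * (N + 1) + 8 < 3 * (N + 1) + 3) := by omega
  have h3 : ¬ (3 * (N + 1) + 8 < 3 * (N + 1) + 6) := by omega
  have h4 : ¬ (3 * (N + 1) + 8 = 3 * (N + 1) + 6) := by omega
  have h5 : ¬ (3 * (N + 1) + 8 = 3 * (N + 1) + 7) := by omega
  simp only [xx, h1, h2, h3, h4, h5, if_false, if_true]

theorem V_st (v : Fin 3 → Fin (N + 1) → ℝ) (l : Fin 3) (m : ℕ) :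
    V v l (st N m) = ∑ i ∈ range (N + 1), if bt m i = true then v l (Fin.ofNat (N + 1) i) else 0 := by
  unfold V st
  rw [Finset.sum_filter, Finset.sum_range]
  refine Finset.sum_congr rfl fun i _ => ?_
  have h : Fin.ofNat (N + 1) (i : ℕ) = i := by
    apply Fin.ext
    simp
  rw [h]

theorem W_st (v : Fin 3 → Fin (N + 1) → ℝ) (w : Fin 3 → ℝ) (l : Fin 3) (m : ℕ) :
    W v w l (st N m) = (∑ i ∈ range (N + 1), if bt m i = true then
      ((i + 1 : ℕ) : ℝ) * v l (Fin.ofNat (N + 1) i) else 0) +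
      if bt m N = true then w l - ((N : ℝ) + 1) * v l (Fin.last N) else 0 := by
  unfold W st
  rw [Finset.sum_filter, Finset.sum_range, Fin.sum_univ_castSucc, Fin.sum_univ_castSucc, add_assoc]
  congr 1
  · refine Finset.sum_congr rfl fun i _ => ?_
    have h : Fin.ofNat (N + 1) (i.castSucc : ℕ) = i.castSucc := by
      apply Fin.ext
      simp
    rw [h]
    have hi : ((i.castSucc : Fin (N + 1)) : ℕ) < N := i.2
    rw [if_pos hi]
    push_cast
    rfl
  · have h : Fin.ofNat (N + 1) ((Fin.last N : Fin (N + 1)) : ℕ) = Fin.last N := by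
      apply Fin.ext
      simp
    have hl : ¬ (((Fin.last N : Fin (N + 1)) : ℕ) < N) := by simp
    rw [if_neg hl, h, Fin.val_last]
    split_ifs
    · push_cast
      ring
    · ring

theorem rep_Vj (hN : N ≤ 9) (p m : ℕ) (hp : p < 3) : ∀ j, j ≤ N + 1 →
    Rep (xx N v w s X Y η) (Vj N p m j)
      (∑ i ∈ range j, if bt m i = true then v (fz p) (Fin.ofNat (N + 1) i) else 0)
  | 0, _ => by rw [Finset.sum_range_zero]; exact rep_zero
  | j + 1, hj => by
    rw [Finset.sum_range_succ]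
    refine rep_add (rep_Vj hN p m hp j (by omega)) (rep_cnd _ ?_)
    have h0 : (N + 1) * p ≤ (N + 1) * 2 := Nat.mul_le_mul_left _ (by omega)
    have h1 := rep_un (x := xx N v w s X Y η) ((N + 1) * p + j) (by omega)
    rw [xx_v p j hp (by omega)] at h1
    exact h1

theorem rep_VF (hN : N ≤ 9) (p m : ℕ) (hp : p < 3) :
    Rep (xx N v w s X Y η) (VF N p m) (V v (fz p) (st N m)) := by
  rw [V_st]
  exact rep_Vj hN p m hp (N + 1) le_rfl

theorem rep_Wj (hN : N ≤ 9) (p m : ℕ) (hp : p < 3) : ∀ j, j ≤ N + 1 →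
    Rep (xx N v w s X Y η) (Wj N p m j)
      (∑ i ∈ range j, if bt m i = true then ((i + 1 : ℕ) : ℝ) * v (fz p) (Fin.ofNat (N + 1) i)
        else 0)
  | 0, _ => by rw [Finset.sum_range_zero]; exact rep_zero
  | j + 1, hj => by
    rw [Finset.sum_range_succ]
    refine rep_add (rep_Wj hN p m hp j (by omega)) (rep_cnd _ ?_)
    have h0 : (N + 1) * p ≤ (N + 1) * 2 := Nat.mul_le_mul_left _ (by omega)
    have h1 := rep_un (x := xx N v w s X Y η) ((N + 1) * p + j) (by omega)
    rw [xx_v p j hp (by omega)] at h1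
    exact rep_mul (j + 1) h1

theorem rep_WF (hN : N ≤ 9) (p m : ℕ) (hp : p < 3) :
    Rep (xx N v w s X Y η) (WF N p m) (W v w (fz p) (st N m) + (s (fz p) + η)) := by
  rw [W_st]
  have h1 := rep_un (x := xx N v w s X Y η) (3 * (N + 1) + p) (by omega)
  rw [xx_y p hp] at h1
  have h2 := rep_un (x := xx N v w s X Y η) (3 * (N + 1) + 3 + p) (by omega)
  rw [xx_s p hp] at h2
  exact rep_add (rep_add (rep_Wj hN p m hp (N + 1) le_rfl) (rep_cnd _ h1)) h2

/-- the full mask -/
def fm (N : ℕ) : ℕ := Nat.sub (Nat.pow 2 (Nat.succ N)) 1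

theorem st_fm (hN : N ≤ 9) : st N (fm N) = univ := by
  unfold st
  rw [Finset.filter_true_of_mem]
  intro i _
  have h1 := i.2
  unfold bt fm
  generalize (i : ℕ) = a at h1
  interval_cases N <;> interval_cases a <;> decide

def uX (N : ℕ) : Fm := un (Nat.add (Nat.mul 3 (Nat.succ N)) 6)
def uY (N : ℕ) : Fm := un (Nat.add (Nat.mul 3 (Nat.succ N)) 7)
def uE (N : ℕ) : Fm := un (Nat.add (Nat.mul 3 (Nat.succ N)) 8)

theorem rep_X (hN : N ≤ 9) : Rep (xx N v w s X Y η) (uX N) X := by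
  have h := rep_un (x := xx N v w s X Y η) (3 * (N + 1) + 6) (by omega)
  rw [xx_X] at h
  exact h

theorem rep_Y (hN : N ≤ 9) : Rep (xx N v w s X Y η) (uY N) Y := by
  have h := rep_un (x := xx N v w s X Y η) (3 * (N + 1) + 7) (by omega)
  rw [xx_Y] at h
  exact h

theorem rep_E (hN : N ≤ 9) : Rep (xx N v w s X Y η) (uE N) η := by
  have h := rep_un (x := xx N v w s X Y η) (3 * (N + 1) + 8) (by omega)
  rw [xx_e] at h
  exact h

end blocks

/-! ### validity -/

/-- `k` is one of the admissible powers -/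
def okk (N k : ℕ) : Bool := Nat.ble 1 k && Nat.ble k N

/-- the classes below `j` that are not in the mask are divisible by `k` -/
def okj (k m : ℕ) : ℕ → Bool
  | 0 => true
  | i + 1 => okj k m i && (bt m i || Nat.beq (Nat.mod (Nat.succ i) k) 0)

/-- the classes that are not in the mask are exact and divisible by `k` -/
def good (N k m : ℕ) : Bool := Nat.beq k 1 || (bt m N && okj k m N)

theorem okj_of {k m : ℕ} : ∀ {j : ℕ}, okj k m j = true → ∀ i, i < j → bt m i = true ∨ k ∣ i + 1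
  | 0, _, i, hi => by omega
  | j + 1, h, i, hi => by
    have h' : (okj k m j && (bt m j || Nat.beq (Nat.mod (Nat.succ j) k) 0)) = true := h
    rw [Bool.and_eq_true, Bool.or_eq_true] at h'
    rcases Nat.lt_succ_iff_lt_or_eq.mp hi with h1 | rfl
    · exact okj_of h'.1 i h1
    · rcases h'.2 with h2 | h2
      · exact Or.inl h2
      · exact Or.inr (Nat.dvd_of_mod_eq_zero (Nat.eq_of_beq_eq_true h2))

theorem good_of {N k m : ℕ} (h : good N k m = true) (i : Fin (N + 1)) (hi : i ∉ st N m) :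
    k = 1 ∨ ((i : ℕ) < N ∧ k ∣ (i : ℕ) + 1) := by
  unfold good at h
  rw [Bool.or_eq_true, Bool.and_eq_true] at h
  rcases h with h | ⟨h1, h2⟩
  · exact Or.inl (Nat.eq_of_beq_eq_true h)
  · right
    have hb : ¬ bt m i = true := fun hb => hi (by rw [st, Finset.mem_filter]; exact ⟨mem_univ _, hb⟩)
    have hlt : (i : ℕ) < N := by
      by_contra hcon
      have h3 : (i : ℕ) = N := by have := i.2; omega
      rw [h3] at hb
      exact hb h1
    exact ⟨hlt, (okj_of h2 i hlt).resolve_left hb⟩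

/-- distinct sides -/
def perm (p q r : ℕ) : Bool :=
  Nat.blt p 3 && Nat.blt q 3 && Nat.blt r 3 && !Nat.beq p q && !Nat.beq q r && !Nat.beq p r

theorem fz_inj {p q : ℕ} (hp : p < 3) (hq : q < 3) (h : (!Nat.beq p q) = true) : fz p ≠ fz q := by
  interval_cases p <;> interval_cases q <;> revert h <;> decide

theorem perm_of {p q r : ℕ} (h : perm p q r = true) :
    p < 3 ∧ q < 3 ∧ r < 3 ∧ fz p ≠ fz q ∧ fz q ≠ fz r ∧ fz p ≠ fz r := by
  unfold perm at h
  simp only [Bool.and_eq_true] at h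
  obtain ⟨⟨⟨⟨⟨h1, h2⟩, h3⟩, h4⟩, h5⟩, h6⟩ := h
  have h1' : p < 3 := Nat.le_of_ble_eq_true h1
  have h2' : q < 3 := Nat.le_of_ble_eq_true h2
  have h3' : r < 3 := Nat.le_of_ble_eq_true h3
  exact ⟨h1', h2', h3', fz_inj h1' h2' h4, fz_inj h2' h3' h5, fz_inj h1' h3' h6⟩

/-! ### pieces, scaled by `2520` -/

def pM (N p q r k Ip Iq Ir : ℕ) : List Fm :=
  let c := mul 2520 (add (VF N p Ip) (add (VF N q Iq) (VF N r Ir)))
  [c, add c (sub (add (mul (Nat.div 5040 k) (uX N)) (mul (Nat.add (Nat.div 5040 k) 2520) (uE N)))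
    (add (mul (Nat.div 2520 k) (add (WF N p Ip) (WF N q Iq))) (mul 2520 (WF N r Ir))))]

def pS (N p q r F : ℕ) : List Fm :=
  let c := add (mul 2520 (VF N r F)) (mul 1260 (add (VF N p (fm N)) (VF N q (fm N))))
  let g := sub (mul 1260 (uE N)) (mul 1260 (WF N r F))
  let b := add (mul 1890 (VF N q (fm N))) g
  let a := add (mul 1890 (VF N p (fm N))) g
  [c, add c b, add (add c b) a]

def pD (N p q r i : ℕ) : List Fm :=
  let c := add (sub (VF N p (fm N)) (VF N p (Nat.pow 2 i))) (VF N q (fm N))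
  [mul 2520 c, add (mul 1260 c) (mul 2520 (VF N r (fm N)))]

section pieces

variable {N : ℕ} {v : Fin 3 → Fin (N + 1) → ℝ} {w s : Fin 3 → ℝ} {X Y η : ℝ}

theorem div_ok {N k n : ℕ} (hN : N ≤ 9) (h : 1 ≤ k ∧ k ≤ N) (hn : 2520 ∣ n) :
    ((n / k : ℕ) : ℝ) = (n : ℝ) / k := by
  have h1 : k ∣ 2520 := by
    obtain ⟨h1, h2⟩ := h
    have h3 : k ≤ 9 := h2.trans hN
    interval_cases k <;> decide
  rw [Nat.cast_div (h1.trans hn) (by have := h.1; positivity)]

theorem cov_M (hN : N ≤ 9) {p q r k Ip Iq Ir : ℕ} (hp : p < 3) (hq : q < 3) (hr : r < 3)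
    (hk : 1 ≤ k ∧ k ≤ N) {t : ℝ} (ht : t < V v (fz p) (st N Ip) + V v (fz q) (st N Iq) +
      V v (fz r) (st N Ir) + max 0 (2 * X / k - ((W v w (fz p) (st N Ip) + s (fz p)) +
        (W v w (fz q) (st N Iq) + s (fz q))) / k - (W v w (fz r) (st N Ir) + s (fz r)))) :
    ∃ y, t < y ∧ ∃ f ∈ pM N p q r k Ip Iq Ir, Rep (xx N v w s X Y η) f (2520 * y) := by
  have vp := rep_VF (v := v) (w := w) (s := s) (X := X) (Y := Y) (η := η) hN p Ip hp
  have vq := rep_VF (v := v) (w := w) (s := s) (X := X) (Y := Y) (η := η) hN q Iq hq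
  have vr := rep_VF (v := v) (w := w) (s := s) (X := X) (Y := Y) (η := η) hN r Ir hr
  have wp := rep_WF (v := v) (w := w) (s := s) (X := X) (Y := Y) (η := η) hN p Ip hp
  have wq := rep_WF (v := v) (w := w) (s := s) (X := X) (Y := Y) (η := η) hN q Iq hq
  have wr := rep_WF (v := v) (w := w) (s := s) (X := X) (Y := Y) (η := η) hN r Ir hr
  have c := rep_mul 2520 (rep_add vp (rep_add vq vr))
  have d := rep_sub (rep_add (rep_mul (5040 / k) (rep_X (v := v) (w := w) (s := s) (X := X) (Y := Y)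
    (η := η) hN)) (rep_mul (5040 / k + 2520) (rep_E (v := v) (w := w) (s := s) (X := X) (Y := Y)
    (η := η) hN))) (rep_add (rep_mul (2520 / k) (rep_add wp wq)) (rep_mul 2520 wr))
  have hk0 : (0 : ℝ) < k := by exact_mod_cast hk.1
  have e1 := div_ok hN hk (n := 5040) (by decide)
  have e2 := div_ok hN hk (n := 2520) (by decide)
  rcases le_total (2 * X / k - ((W v w (fz p) (st N Ip) + s (fz p)) +
        (W v w (fz q) (st N Iq) + s (fz q))) / k - (W v w (fz r) (st N Ir) + s (fz r))) 0 with h | h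
  · rw [max_eq_left h] at ht
    refine ⟨_, ht, _, List.mem_cons_self, rep_congr c ?_⟩
    push_cast
    ring
  · rw [max_eq_right h] at ht
    refine ⟨_, ht, _, List.mem_cons_of_mem _ List.mem_cons_self, rep_congr (rep_add c d) ?_⟩
    push_cast
    push_cast at e1 e2
    rw [e1, e2]
    field_simp
    ring

theorem cov_S (hN : N ≤ 9) {p q r F : ℕ} (hp : p < 3) (hq : q < 3) (hr : r < 3)
    (hle : V v (fz p) univ ≤ V v (fz q) univ) {t : ℝ} (ht : t < V v (fz r) (st N F) +
      1 / 2 * (V v (fz p) univ + max 0 (3 / 2 * V v (fz p) univ -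
        (W v w (fz r) (st N F) + s (fz r)))) +
      1 / 2 * (V v (fz q) univ + max 0 (3 / 2 * V v (fz q) univ -
        (W v w (fz r) (st N F) + s (fz r))))) :
    ∃ y, t < y ∧ ∃ f ∈ pS N p q r F, Rep (xx N v w s X Y η) f (2520 * y) := by
  have vp := rep_VF (v := v) (w := w) (s := s) (X := X) (Y := Y) (η := η) hN p (fm N) hp
  have vq := rep_VF (v := v) (w := w) (s := s) (X := X) (Y := Y) (η := η) hN q (fm N) hq
  rw [st_fm hN] at vp vq
  have vr := rep_VF (v := v) (w := w) (s := s) (X := X) (Y := Y) (η := η) hN r F hr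
  have wr := rep_WF (v := v) (w := w) (s := s) (X := X) (Y := Y) (η := η) hN r F hr
  have hE := rep_E (v := v) (w := w) (s := s) (X := X) (Y := Y) (η := η) hN
  have c := rep_add (rep_mul 2520 vr) (rep_mul 1260 (rep_add vp vq))
  have g := rep_sub (rep_mul 1260 hE) (rep_mul 1260 wr)
  have b := rep_add (rep_mul 1890 vq) g
  have a := rep_add (rep_mul 1890 vp) g
  set B := 3 / 2 * V v (fz q) univ - (W v w (fz r) (st N F) + s (fz r)) with hB
  set A := 3 / 2 * V v (fz p) univ - (W v w (fz r) (st N F) + s (fz r)) with hA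
  have hAB : A ≤ B := by rw [hA, hB]; linarith
  rcases le_total B 0 with h | h
  · rw [max_eq_left h, max_eq_left (hAB.trans h)] at ht
    refine ⟨_, ht, _, List.mem_cons_self, rep_congr c ?_⟩
    push_cast
    ring
  · rcases le_total A 0 with h' | h'
    · rw [max_eq_left h', max_eq_right h] at ht
      refine ⟨_, ht, _, List.mem_cons_of_mem _ List.mem_cons_self, rep_congr (rep_add c b) ?_⟩
      rw [hB]
      push_cast
      ring
    · rw [max_eq_right h', max_eq_right h] at ht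
      refine ⟨_, ht, _, List.mem_cons_of_mem _ (List.mem_cons_of_mem _ List.mem_cons_self),
        rep_congr (rep_add (rep_add c b) a) ?_⟩
      rw [hA, hB]
      push_cast
      ring

theorem st_pow (hN : N ≤ 9) {i : ℕ} (hi : i < N + 1) :
    st N (2 ^ i) = {(⟨i, hi⟩ : Fin (N + 1))} := by
  unfold st
  ext j
  rw [Finset.mem_filter, Finset.mem_singleton, Fin.ext_iff]
  have h1 := j.2
  simp only [mem_univ, true_and]
  unfold bt
  generalize (j : ℕ) = a at h1
  have hi' : i ≤ 9 := by omega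
  have ha : a ≤ 9 := by omega
  clear h1 hi
  interval_cases i <;> interval_cases a <;> decide

theorem cov_D (hN : N ≤ 9) {p q r i : ℕ} (hp : p < 3) (hq : q < 3) (hr : r < 3) (hi : i < N + 1)
    {t : ℝ} (ht : t < V v (fz p) {(⟨i, hi⟩ : Fin (N + 1))}ᶜ + V v (fz q) univ ∨
      t < (V v (fz p) {(⟨i, hi⟩ : Fin (N + 1))}ᶜ + V v (fz q) univ) / 2 + V v (fz r) univ) :
    ∃ y, t < y ∧ ∃ f ∈ pD N p q r i, Rep (xx N v w s X Y η) f (2520 * y) := by
  have vp := rep_VF (v := v) (w := w) (s := s) (X := X) (Y := Y) (η := η) hN p (fm N) hp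
  have vi := rep_VF (v := v) (w := w) (s := s) (X := X) (Y := Y) (η := η) hN p (2 ^ i) hp
  have vq := rep_VF (v := v) (w := w) (s := s) (X := X) (Y := Y) (η := η) hN q (fm N) hq
  have vr := rep_VF (v := v) (w := w) (s := s) (X := X) (Y := Y) (η := η) hN r (fm N) hr
  rw [st_fm hN] at vp vq vr
  rw [st_pow hN hi] at vi
  have e : V v (fz p) {(⟨i, hi⟩ : Fin (N + 1))}ᶜ =
      V v (fz p) univ - V v (fz p) {(⟨i, hi⟩ : Fin (N + 1))} := by
    have := Finset.sum_add_sum_compl {(⟨i, hi⟩ : Fin (N + 1))} (fun i => v (fz p) i)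
    unfold V
    linarith
  rw [e] at ht
  have c := rep_add (rep_sub vp vi) vq
  rcases ht with h | h
  · refine ⟨_, h, _, List.mem_cons_self, rep_congr (rep_mul 2520 c) ?_⟩
    push_cast
    ring
  · refine ⟨_, h, _, List.mem_cons_of_mem _ List.mem_cons_self,
      rep_congr (rep_add (rep_mul 1260 c) (rep_mul 2520 vr)) ?_⟩
    push_cast
    ring

end pieces

end Pool.Agent.R365.Chk
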