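import Mathlib
import Pool.Agent.R365.Chk.Forms

set_option autoImplicit false
set_option linter.unusedVariables false

/-!
# The run of a certificate and its soundness
-/

namespace Pool.Agent.R365.Chk

open Finset Fm Pool.Agent.R365.AK

/-- parameters: `N` exact classes, `e = (na λ ± nb) / den` for `lon / lod ≤ λ ≤ hin / hid` -/
structure Prm where
  N : ℕ
  na : ℕ
  nb : ℕ
  den : ℕ
  neg : Bool
  lon : ℕ
  lod : ℕ
  hin : ℕ
  hid : ℕ

/-- the exponent -/
noncomputable def Prm.th (P : Prm) (lam : ℝ) : ℝ :=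
  if P.neg = true then ((P.na : ℝ) * lam - P.nb) / P.den else ((P.na : ℝ) * lam + P.nb) / P.den

def tf (P : Prm) : Fm :=
  let a := add (mul (Nat.mul 2520 P.na) (uY P.N)) (mul (Nat.mul 25200000 P.den) (uE P.N))
  let b := mul (Nat.mul 2520 P.nb) (uX P.N)
  bif P.neg then sub a b else add a b

def rowT (P : Prm) (f : Fm) : Fm := sub (mul P.den f) (tf P)

def baseR (P : Prm) : List Fm :=
  [sub (WF P.N 0 (fm P.N)) (uX P.N), sub (WF P.N 1 (fm P.N)) (uX P.N),
    sub (WF P.N 2 (fm P.N)) (uX P.N),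
    sub (add (uX P.N) (mul 2 (uE P.N))) (WF P.N 0 (fm P.N)),
    sub (add (uX P.N) (mul 2 (uE P.N))) (WF P.N 1 (fm P.N)),
    sub (add (uX P.N) (mul 2 (uE P.N))) (WF P.N 2 (fm P.N)),
    sub (add (uY P.N) (uE P.N)) (add (VF P.N 0 (fm P.N)) (add (VF P.N 1 (fm P.N)) (VF P.N 2 (fm P.N)))),
    sub (VF P.N 1 (fm P.N)) (VF P.N 0 (fm P.N)), sub (VF P.N 2 (fm P.N)) (VF P.N 1 (fm P.N)),
    sub (mul P.lod (uY P.N)) (mul P.lon (uX P.N)), sub (mul P.hin (uX P.N)) (mul P.hid (uY P.N))]

def dg (n i : ℕ) : ℕ := Nat.mod (Nat.div n (Nat.pow 1024 i)) 1024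

def validM (N m : ℕ) : Bool :=
  perm (dg m 0) (dg m 1) (dg m 2) && okk N (dg m 3) && good N (dg m 3) (dg m 4) &&
    good N (dg m 3) (dg m 5)

def validS (m : ℕ) : Bool := perm (dg m 0) (dg m 1) (dg m 2) && Nat.blt (dg m 0) (dg m 1)

def validD (N m : ℕ) : Bool :=
  perm (dg m 0) (dg m 1) (dg m 2) && Nat.ble 1 (dg m 3) && Nat.blt (dg m 3) N

def valid (N kd m : ℕ) : Bool :=
  bif Nat.beq kd 1 then validM N m else
  bif Nat.beq kd 2 then validS m else
  validD N m

def pcs (N kd m : ℕ) : List Fm :=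
  bif Nat.beq kd 1 then
    pM N (dg m 0) (dg m 1) (dg m 2) (dg m 3) (dg m 4) (dg m 5) (dg m 6) else
  bif Nat.beq kd 2 then pS N (dg m 0) (dg m 1) (dg m 2) (dg m 3) else
    pD N (dg m 0) (dg m 1) (dg m 2) (dg m 3)

/-- new goals in front of the old ones -/
def expand (P : Prm) (g : List Fm) (gs : List (List Fm)) : List Fm → List (List Fm)
  | [] => gs
  | f :: fs => (rowT P f :: g) :: expand P g gs fs

/-- the run of a certificate: a list of codes against a stack of goals -/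
def run (P : Prm) : List ℕ → List (List Fm) → Bool
  | [], gs => gs.isEmpty
  | n :: ns, gs => match gs with
    | [] => false
    | g :: gs => bif Nat.beq (Nat.mod n 4) 0 then leafOk (baseR P) g (Nat.div n 4) && run P ns gs
      else valid P.N (Nat.mod n 4) (Nat.div n 4) &&
        run P ns (expand P g gs (pcs P.N (Nat.mod n 4) (Nat.div n 4)))

/-- all the bounds fail -/
structure Fails {N : ℕ} (t X : ℝ) (v : Fin 3 → Fin (N + 1) → ℝ) (w s : Fin 3 → ℝ) : Prop where
  M : ∀ (p q r : Fin 3) (k : ℕ) (I : Fin 3 → Finset (Fin (N + 1))), p ≠ q → q ≠ r → p ≠ r →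
      1 ≤ k → k ≤ N → (∀ i, i ∉ I p → k = 1 ∨ ((i : ℕ) < N ∧ k ∣ (i : ℕ) + 1)) →
      (∀ i, i ∉ I q → k = 1 ∨ ((i : ℕ) < N ∧ k ∣ (i : ℕ) + 1)) →
      t < V v p (I p) + V v q (I q) + V v r (I r) +
        max 0 (2 * X / k - ((W v w p (I p) + s p) + (W v w q (I q) + s q)) / k -
          (W v w r (I r) + s r))
  S : ∀ (p q r : Fin 3) (F : Finset (Fin (N + 1))), p ≠ q → q ≠ r → p ≠ r →
      t < V v r F + 1 / 2 * (V v p univ + max 0 (3 / 2 * V v p univ - (W v w r F + s r))) +
        1 / 2 * (V v q univ + max 0 (3 / 2 * V v q univ - (W v w r F + s r)))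
  D : ∀ (p q r : Fin 3) (i : Fin (N + 1)), p ≠ q → q ≠ r → p ≠ r → 1 ≤ (i : ℕ) → (i : ℕ) < N →
      t < V v p {i}ᶜ + V v q univ ∨ t < (V v p {i}ᶜ + V v q univ) / 2 + V v r univ

section sound

variable {N : ℕ} {v : Fin 3 → Fin (N + 1) → ℝ} {w s : Fin 3 → ℝ} {X Y η t : ℝ}

theorem fz_le (h01 : V v 0 univ ≤ V v 1 univ) (h12 : V v 1 univ ≤ V v 2 univ) {p q : ℕ}
    (hp : p < 3) (hq : q < 3) (h : p < q) : V v (fz p) univ ≤ V v (fz q) univ := by
  interval_cases p <;> interval_cases q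
  · exact h01
  · exact h01.trans h12
  · exact h12

theorem node_sound (hN : N ≤ 9) (h01 : V v 0 univ ≤ V v 1 univ) (h12 : V v 1 univ ≤ V v 2 univ)
    (hf : Fails t X v w s) (kd m : ℕ) (h : valid N kd m = true) :
    ∃ y, t < y ∧ ∃ f ∈ pcs N kd m, Rep (xx N v w s X Y η) f (2520 * y) := by
  unfold valid at h
  unfold pcs
  cases h1 : Nat.beq kd 1
  · cases h2 : Nat.beq kd 2
    · rw [h1, h2] at h
      simp only [cond_false] at h ⊢
      unfold validD at h
      rw [Bool.and_eq_true, Bool.and_eq_true] at h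
      obtain ⟨⟨g1, g2⟩, g3⟩ := h
      obtain ⟨hp, hq, hr, n1, n2, n3⟩ := perm_of g1
      have i1 : 1 ≤ dg m 3 := Nat.le_of_ble_eq_true g2
      have i2 : dg m 3 < N := Nat.le_of_ble_eq_true g3
      exact cov_D hN hp hq hr (i := dg m 3) (by omega) (hf.D _ _ _ ⟨dg m 3, by omega⟩ n1 n2 n3 i1 i2)
    · rw [h1, h2] at h
      simp only [cond_false, cond_true] at h ⊢
      unfold validS at h
      rw [Bool.and_eq_true] at h
      obtain ⟨hp, hq, hr, n1, n2, n3⟩ := perm_of h.1
      have hlt : dg m 0 < dg m 1 := Nat.le_of_ble_eq_true h.2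
      exact cov_S hN hp hq hr (fz_le h01 h12 hp hq hlt) (hf.S _ _ _ (st N (dg m 3)) n1 n2 n3)
  · rw [h1] at h
    simp only [cond_true] at h ⊢
    unfold validM at h
    rw [Bool.and_eq_true, Bool.and_eq_true, Bool.and_eq_true] at h
    obtain ⟨⟨⟨g1, g2⟩, g3⟩, g4⟩ := h
    obtain ⟨hp, hq, hr, n1, n2, n3⟩ := perm_of g1
    unfold okk at g2
    rw [Bool.and_eq_true] at g2
    have k1 : 1 ≤ dg m 3 ∧ dg m 3 ≤ N :=
      ⟨Nat.le_of_ble_eq_true g2.1, Nat.le_of_ble_eq_true g2.2⟩
    have hM := hf.M (fz (dg m 0)) (fz (dg m 1)) (fz (dg m 2)) (dg m 3)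
      (fun l => if l = fz (dg m 0) then st N (dg m 4) else
        if l = fz (dg m 1) then st N (dg m 5) else st N (dg m 6)) n1 n2 n3 k1.1 k1.2
      (fun i hi => by
        simp only [if_true] at hi
        exact good_of g3 i hi)
      (fun i hi => by
        simp only [if_neg n1.symm, if_true] at hi
        exact good_of g4 i hi)
    simp only [if_true, if_neg n1.symm, if_neg n3.symm, if_neg n2.symm] at hM
    exact cov_M hN hp hq hr k1 hM

theorem rep_tf (P : Prm) (hN : P.N ≤ 9) (hd : 0 < P.den) {v : Fin 3 → Fin (P.N + 1) → ℝ} {lam : ℝ} :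
    Rep (xx P.N v w s X (lam * X) η) (tf P) (2520 * P.den * (P.th lam * X + 10000 * η)) := by
  have hY := rep_Y (v := v) (w := w) (s := s) (X := X) (Y := lam * X) (η := η) hN
  have hX := rep_X (v := v) (w := w) (s := s) (X := X) (Y := lam * X) (η := η) hN
  have hE := rep_E (v := v) (w := w) (s := s) (X := X) (Y := lam * X) (η := η) hN
  have a := rep_add (rep_mul (2520 * P.na) hY) (rep_mul (25200000 * P.den) hE)
  have b := rep_mul (2520 * P.nb) hX
  have hd' : (P.den : ℝ) ≠ 0 := by positivity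
  unfold tf Prm.th
  cases hn : P.neg
  · refine rep_congr (rep_add a b) ?_
    simp only [Bool.false_eq_true, if_false]
    push_cast
    field_simp
    ring
  · refine rep_congr (rep_sub a b) ?_
    simp only [if_true]
    push_cast
    field_simp
    ring

theorem expand_mem (P : Prm) (g : List Fm) (gs : List (List Fm)) (l : List Fm) (f : Fm)
    (hf : f ∈ l) : (rowT P f :: g) ∈ expand P g gs l := by
  induction l with
  | nil => exact absurd hf List.not_mem_nil
  | cons a l ih =>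
    rcases List.mem_cons.1 hf with rfl | h
    · exact List.mem_cons_self
    · exact List.mem_cons_of_mem _ (ih h)

theorem expand_mem' (P : Prm) (g : List Fm) (gs : List (List Fm)) (l : List Fm) (g' : List Fm)
    (hg : g' ∈ gs) : g' ∈ expand P g gs l := by
  induction l with
  | nil => exact hg
  | cons a l ih => exact List.mem_cons_of_mem _ ih

/-- a goal: the rows of the path cannot all be positive -/
def Goal (x : ℕ → ℝ) (g : List Fm) : Prop := (∀ f ∈ g, ∃ r, Rep x f r ∧ 0 < r) → False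

theorem run_sound (P : Prm) (hN : P.N ≤ 9) (hd : 0 < P.den) {v : Fin 3 → Fin (P.N + 1) → ℝ}
    {lam : ℝ} (hx : ∀ j, 0 ≤ xx P.N v w s X (lam * X) η j)
    (h01 : V v 0 univ ≤ V v 1 univ) (h12 : V v 1 univ ≤ V v 2 univ)
    (hb : ∀ f ∈ baseR P, ∃ r, Rep (xx P.N v w s X (lam * X) η) f r ∧ 0 ≤ r)
    (hf : Fails (P.th lam * X + 10000 * η) X v w s) : ∀ (ns : List ℕ) (gs : List (List Fm)),
    run P ns gs = true → ∀ g ∈ gs, Goal (xx P.N v w s X (lam * X) η) g := by
  intro ns
  induction ns with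
  | nil =>
    intro gs h g hg
    have h' : gs.isEmpty = true := h
    rw [List.isEmpty_iff] at h'
    rw [h'] at hg
    exact absurd hg List.not_mem_nil
  | cons n ns ih =>
    intro gs h g hg
    cases gs with
    | nil => exact absurd hg List.not_mem_nil
    | cons g₀ gs =>
      have h' : (bif Nat.beq (Nat.mod n 4) 0 then
          leafOk (baseR P) g₀ (Nat.div n 4) && run P ns gs
        else valid P.N (Nat.mod n 4) (Nat.div n 4) &&
          run P ns (expand P g₀ gs (pcs P.N (Nat.mod n 4) (Nat.div n 4)))) = true := h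
      cases hk : Nat.beq (Nat.mod n 4) 0
      · rw [hk, cond_false, Bool.and_eq_true] at h'
        obtain ⟨h1, h2⟩ := h'
        have h3 := ih _ h2
        rcases List.mem_cons.1 hg with rfl | hg'
        · intro hrows
          obtain ⟨y, hy, f, hfm, hrep⟩ := node_sound (Y := lam * X) (η := η) hN h01 h12 hf _ _ h1
          refine h3 _ (expand_mem P g gs _ f hfm) ?_
          intro f' hf'
          rcases List.mem_cons.1 hf' with rfl | hf''
          · refine ⟨_, rep_sub (rep_mul P.den hrep) (rep_tf P hN hd), ?_⟩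
            have hd' : (0 : ℝ) < P.den := by exact_mod_cast hd
            nlinarith
          · exact hrows f' hf''
        · exact h3 g (expand_mem' P g₀ gs _ g hg')
      · rw [hk, cond_true, Bool.and_eq_true] at h'
        obtain ⟨h1, h2⟩ := h'
        rcases List.mem_cons.1 hg with rfl | hg'
        · intro hrows
          exact leafOk_sound hx _ _ _ hb hrows h1
        · exact ih gs h2 g hg'

theorem base_sound (P : Prm) (hN : P.N ≤ 9) {v : Fin 3 → Fin (P.N + 1) → ℝ} {lam : ℝ}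
    (hX : 0 ≤ X) (hW : ∀ l, |W v w l univ + s l - X| ≤ η)
    (hV : V v 0 univ + V v 1 univ + V v 2 univ ≤ lam * X + η)
    (h01 : V v 0 univ ≤ V v 1 univ) (h12 : V v 1 univ ≤ V v 2 univ)
    (hlo : (P.lon : ℝ) ≤ P.lod * lam) (hhi : P.hid * lam ≤ P.hin) :
    ∀ f ∈ baseR P, ∃ r, Rep (xx P.N v w s X (lam * X) η) f r ∧ 0 ≤ r := by
  have hYr := rep_Y (v := v) (w := w) (s := s) (X := X) (Y := lam * X) (η := η) hN
  have hXr := rep_X (v := v) (w := w) (s := s) (X := X) (Y := lam * X) (η := η) hN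
  have hEr := rep_E (v := v) (w := w) (s := s) (X := X) (Y := lam * X) (η := η) hN
  have w0 := rep_WF (v := v) (w := w) (s := s) (X := X) (Y := lam * X) (η := η) hN 0 (fm P.N)
    (by norm_num)
  have w1 := rep_WF (v := v) (w := w) (s := s) (X := X) (Y := lam * X) (η := η) hN 1 (fm P.N)
    (by norm_num)
  have w2 := rep_WF (v := v) (w := w) (s := s) (X := X) (Y := lam * X) (η := η) hN 2 (fm P.N)
    (by norm_num)
  have v0 := rep_VF (v := v) (w := w) (s := s) (X := X) (Y := lam * X) (η := η) hN 0 (fm P.N)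
    (by norm_num)
  have v1 := rep_VF (v := v) (w := w) (s := s) (X := X) (Y := lam * X) (η := η) hN 1 (fm P.N)
    (by norm_num)
  have v2 := rep_VF (v := v) (w := w) (s := s) (X := X) (Y := lam * X) (η := η) hN 2 (fm P.N)
    (by norm_num)
  rw [st_fm hN] at w0 w1 w2 v0 v1 v2
  have f0 : fz 0 = 0 := rfl
  have f1 : fz 1 = 1 := rfl
  have f2 : fz 2 = 2 := rfl
  rw [f0] at w0 v0
  rw [f1] at w1 v1
  rw [f2] at w2 v2
  have q0 := abs_le.mp (hW 0)
  have q1 := abs_le.mp (hW 1)
  have q2 := abs_le.mp (hW 2)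
  obtain ⟨q01, q02⟩ := q0
  obtain ⟨q11, q12⟩ := q1
  obtain ⟨q21, q22⟩ := q2
  have hlo' := mul_le_mul_of_nonneg_right hlo hX
  have hhi' := mul_le_mul_of_nonneg_right hhi hX
  intro f hf
  simp only [baseR, List.mem_cons, List.not_mem_nil, or_false] at hf
  rcases hf with rfl | rfl | rfl | rfl | rfl | rfl | rfl | rfl | rfl | rfl | rfl
  · exact ⟨_, rep_sub w0 hXr, by linarith⟩
  · exact ⟨_, rep_sub w1 hXr, by linarith⟩
  · exact ⟨_, rep_sub w2 hXr, by linarith⟩
  · exact ⟨_, rep_sub (rep_add hXr (rep_mul 2 hEr)) w0, by push_cast; linarith⟩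
  · exact ⟨_, rep_sub (rep_add hXr (rep_mul 2 hEr)) w1, by push_cast; linarith⟩
  · exact ⟨_, rep_sub (rep_add hXr (rep_mul 2 hEr)) w2, by push_cast; linarith⟩
  · exact ⟨_, rep_sub (rep_add hYr hEr) (rep_add v0 (rep_add v1 v2)), by linarith⟩
  · exact ⟨_, rep_sub v1 v0, by linarith⟩
  · exact ⟨_, rep_sub v2 v1, by linarith⟩
  · exact ⟨_, rep_sub (rep_mul P.lod hYr) (rep_mul P.lon hXr), by linarith⟩
  · exact ⟨_, rep_sub (rep_mul P.hin hXr) (rep_mul P.hid hYr), by linarith⟩

theorem xx_nonneg {N : ℕ} {v : Fin 3 → Fin (N + 1) → ℝ} {w s : Fin 3 → ℝ} {X Y η : ℝ}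
    (hX : 0 ≤ X) (hY : 0 ≤ Y) (hη : 0 ≤ η) (hv : ∀ l i, 0 ≤ v l i)
    (hw : ∀ l, ((N : ℝ) + 1) * v l (Fin.last N) ≤ w l) (hs : ∀ l, -η ≤ s l) (j : ℕ) :
    0 ≤ xx N v w s X Y η j := by
  unfold xx
  split_ifs
  · exact hv _ _
  · have := hw (fz (j - 3 * (N + 1)))
    linarith
  · have := hs (fz (j - (3 * (N + 1) + 3)))
    linarith
  · exact hX
  · exact hY
  · exact hη
  · exact le_rfl

theorem fails_perm {N : ℕ} {t X : ℝ} {v : Fin 3 → Fin (N + 1) → ℝ} {w s : Fin 3 → ℝ}
    (hF : Fails t X v w s) (π : Equiv.Perm (Fin 3)) :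
    Fails t X (fun l => v (π l)) (fun l => w (π l)) (fun l => s (π l)) := by
  have hinj : ∀ {a b : Fin 3}, a ≠ b → π a ≠ π b := fun h h' => h (π.injective h')
  refine ⟨?_, ?_, ?_⟩
  · intro p q r k I hpq hqr hpr hk1 hk4 hp hq
    have h := hF.M (π p) (π q) (π r) k (fun l => I (π.symm l)) (hinj hpq) (hinj hqr) (hinj hpr)
      hk1 hk4 (fun i hi => hp i (by simpa using hi)) (fun i hi => hq i (by simpa using hi))
    simp only [Equiv.symm_apply_apply] at h
    exact h
  · intro p q r F hpq hqr hpr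
    exact hF.S (π p) (π q) (π r) F (hinj hpq) (hinj hqr) (hinj hpr)
  · intro p q r i hpq hqr hpr hi1 hi4
    exact hF.D (π p) (π q) (π r) i (hinj hpq) (hinj hqr) (hinj hpr) hi1 hi4

/-- a successful run gives the certificate -/
theorem cert_of_run (P : Prm) (ns : List ℕ) (hrun : run P ns [[]] = true) (hN : P.N ≤ 9)
    (hd : 0 < P.den) (lam : ℝ) (hl : 0 ≤ lam) (hlo : (P.lon : ℝ) ≤ P.lod * lam)
    (hhi : P.hid * lam ≤ P.hin) : Cert P.N lam (P.th lam) := by
  refine ⟨10000, by norm_num, ?_⟩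
  intro X η v w s hX hη hv hw hs hW hV
  by_contra hcon
  push Not at hcon
  obtain ⟨hM, hS, hD⟩ := hcon
  have hF : Fails (P.th lam * X + 10000 * η) X v w s := by
    refine ⟨?_, ?_, ?_⟩
    · intro p q r k I hpq hqr hpr hk1 hkN hp hq
      exact hM p q r k I hpq hqr hpr hk1 hkN hp hq
    · intro p q r F hpq hqr hpr
      exact hS p q r F hpq hqr hpr
    · intro p q r i hpq hqr hpr hi1 hiN
      by_cases h : V v p {i}ᶜ + V v q univ ≤ P.th lam * X + 10000 * η
      · right
        exact hD p q r i hpq hqr hpr hi1 hiN h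
      · left
        exact not_le.mp h
  set π := Tuple.sort fun l => V v l univ with hπ
  have hmono := Tuple.monotone_sort fun l => V v l univ
  have h01 : V v (π 0) univ ≤ V v (π 1) univ := hmono (by decide : (0 : Fin 3) ≤ 1)
  have h12 : V v (π 1) univ ≤ V v (π 2) univ := hmono (by decide : (1 : Fin 3) ≤ 2)
  have hsum : V v (π 0) univ + V v (π 1) univ + V v (π 2) univ ≤ lam * X + η := by
    have h1 : ∑ l : Fin 3, V v (π l) univ = ∑ l : Fin 3, V v l univ :=
      Equiv.sum_comp π fun l => V v l univ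
    rw [Fin.sum_univ_three, Fin.sum_univ_three] at h1
    rw [h1]
    exact hV
  exact run_sound P hN hd (v := fun l => v (π l)) (w := fun l => w (π l)) (s := fun l => s (π l))
    (xx_nonneg hX (by positivity) hη (fun l i => hv _ _) (fun l => hw _) (fun l => hs _))
    h01 h12
    (base_sound P hN hX (fun l => hW (π l)) hsum h01 h12 hlo hhi)
    (fails_perm hF π) ns [[]] hrun [] List.mem_cons_self (fun f hf => absurd hf List.not_mem_nil)

end sound

end Pool.Agent.R365.Chk
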