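import Mathlib
import Pool.Agent.R365.Chk.Run

set_option autoImplicit false

/-!
# Certificate (generated): 5/3 ≤ λ ≤ 2/1, exponent (0 λ + 1)/1
-/

namespace Pool.Agent.R365.Chk.C10

def prm : Prm := ⟨4, 0, 1, 1, false, 5, 3, 2, 1⟩

def d0 : List ℕ := [
  0x300800007,
  0x781e0780100002005,
  0x781d0740200801001,
  0x10000100b,
  0x800200100000013b00000004ec13b09d8000000000034,
  0x781d0740200002005,
  0x781d0740200402001,
  0x3000800000200100000000000000004ec27613b0000000000034,
  0x40000000000400000000000004ec0013b0000000002c,
  0x80000000400000000000004ec9d8000000000002c,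
  0x200400000000000000009d93b0000000002c,
  0x33b00000000013b00000000013b13b13b030,
  0x781e0780100002005,
  0x781d0740200801001,
  0x10000100b,
  0x800200100000013b00000004ec13b09d8000000000034,
  0x781d0740200002005,
  0x781d0740200402001,
  0x3000800000200100000000000000004ec27613b0000000000034,
  0x40000000000400000000000004ec0013b0000000002c,
  0x80000000400000000000004ec9d8000000000002c,
  0x200400000000000000009d93b0000000002c,
  0x33b00000000013b00000000013b13b13b030]

def dat : List ℕ :=
  d0

set_option maxRecDepth 100000 in
theorem run_ok : run prm dat [[]] = true := by decide +kernel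

end Pool.Agent.R365.Chk.C10
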