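import Mathlib
import Pool.Agent.R365.Chk.Run

set_option autoImplicit false

/-!
# Certificate (generated): 3/2 ≤ λ ≤ 5/3, exponent (3 λ - 2)/3
-/

namespace Pool.Agent.R365.Chk.C9

def prm : Prm := ⟨4, 3, 2, 3, true, 3, 2, 5, 3⟩

def d0 : List ℕ := [
  0x7c1f07c0400801001,
  0x1e00801002,
  0x10000100b,
  0x40010007623b10000ec47620000000000000000034,
  0x781e0780100002005,
  0x7c1c0780100002005,
  0x781a0780100002005,
  0x781d0740200402001,
  0x681d0740200801001,
  0x781c0780100002005,
  0x701b06c0300801001,
  0x8000e000200016260ec4076200000ec40b130b13000000000000040,
  0x1000000000000000000001c001c00010000589812750589800002c4c189c0c4e0000000000000044,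
  0x20000000000000000000000400009d813b04ec2274000000000000ec41d883b103c,
  0x10000000000000000000008000ec47620ec43b10ec4000000000007621d8838,
  0x10000000000000ec400000000007627621d8834,
  0x1000000000000008000ec47620ec43b10ec400000000000ec43b1038,
  0x20000000400009d813b04ec2274000000000000ec41d883b103c,
  0x10000000000000ec40000000000ec47623b1034,
  0x781d07c0200402001,
  0x781d07c0200801001,
  0x781d0740200002005,
  0x701d07c0200402001,
  0x7c1a0780100002005,
  0x1e00402002,
  0x4000000000000001000000040002760313813b313800003b100000ec4000000003c,
  0x781c0780100002005,
  0x500000000000000001000000004000100001626093a8000084e4000003b1000001d8800000000044,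
  0x781a0780100002005,
  0x781d0740200402001,
  0x681b06c0300801001,
  0x681e0780100002005,
  0x781d0540200402001,
  0xc000000000000000000004300000000100000260000a00005000000000140000500000234c900000000000ceb800000003b100000003937800000033ae054,
  0x10000000000000ec400000000007627620ec434,
  0x10000100b,
  0x70150740200402001,
  0x501d05c0200402001,
  0x780a0700100002005,
  0xa6000000000000000000000000000000001a8000000000000000000002e8000154000a280012f0000ca000650000003f8fb8000000000003b8620000000127500076200231180000000000005c,
  0x2000000000000000000000000000008000000000000000000001800100000000200001275000000000ec40000000000000084e43b1024ea044,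
  0xe00000000000000000600000000000008000400000000000000000180008000200000d61a0000000007d82000000ec4000002ffd000000762048,
  0x400000000000000000002c000000000000030000000000000000000000001200016000002e24800000000010d79000000000000000086bc8589806ce5850,
  0x700000000000000000200000000400006000000000000000000000280000513600000000054e70000000000000017fe82c4c0b13048,
  0x20000000000800027627604ec627000000000003b113b04ec038,
  0x10000000000000ec400000000007627621d8834,
  0x2000800027627604ec627000000000003b11d88762038,
  0x80000200000000000001000000007004ec00000000000ec423fdc0000000000000001d8831d58000004c,
  0x40000000000000000080007625898000762000000000001d88ec43b1038,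
  0x701d07c0200801001,
  0x40000000000000020004000113a6c4813b29d60000000000007621d881d883c,
  0x100020004000000000000002c4c0000000000016262c4c3b103c,
  0x10000000000000ec400000000007623b13b1034,
  0x10000000000000ec40000000000ec43b11d8834,
  0x10000000000000ec400000000007627621d8834,
  0x834800009d813b44e800000000003b10000000038,
  0x10000000000000ec40000000000ec41d88ec434]

def dat : List ℕ :=
  d0

set_option maxRecDepth 100000 in
theorem run_ok : run prm dat [[]] = true := by decide +kernel

end Pool.Agent.R365.Chk.C9
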