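import Mathlib
import Pool.Agent.R365.Chk.Run

set_option autoImplicit false

/-!
# Certificate (generated): 2/1 ≤ λ ≤ 3/1, exponent (1 λ - 1)/1
-/

namespace Pool.Agent.R365.Chk.C11

def prm : Prm := ⟨4, 1, 1, 1, true, 2, 1, 3, 1⟩

def d0 : List ℕ := [
  0x100800007,
  0x781e0780100002005,
  0x781d0740200402001,
  0x800400080013b000004ec00004ec27604ec0000000000038,
  0x20010004ec000000000013b00004ec000000000034,
  0x20000000000013b00000000013b13b13b030,
  0x781e0780100002005,
  0x100402003,
  0x100002007,
  0x1000200080013b0000000000009d813b04ec0000000000038,
  0x781d0740200002005,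
  0x781d0740200801001,
  0x1800180000004000400076200000000000031383b109d80000000000003c,
  0x100000000000010004ec000000000000009d84ec000000000034,
  0x80000000010004ec000000000013b09d8000000000000034,
  0x781d0740200801001,
  0x781d0740200002005,
  0x781d0740200402001,
  0x1800000080020008001d88000000000009d827609d80000000000038,
  0x100000000000010004ec000000000013b00004ec000000000034,
  0x80000000010004ec000000000013b09d8000000000000034,
  0x40000010004ec000000000000009d84ec000000000034,
  0x20000000000013b00000000013b13b13b030]

def dat : List ℕ :=
  d0

set_option maxRecDepth 100000 in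
theorem run_ok : run prm dat [[]] = true := by decide +kernel

end Pool.Agent.R365.Chk.C11
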